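import Pool.Agent.EWG.StmtsC

/-!
# Squad EWG, row CNT: Goldfeld, counting form
-/

set_option autoImplicit false

namespace Pool.Agent.EWG.H26

open Finset

/-- the large prime factors of `p - 1` -/
def T (x p : ℕ) : Finset ℕ :=
  ((pr (Icc 1 x)).filter (fun l : ℕ => 2 * x < l ^ 2)).filter (fun l => p % l = 1 % l)

theorem mem_T {x p l : ℕ} (hp : p.Prime) (h : l ∈ T x p) :
    l.Prime ∧ l ≤ x ∧ 2 * x < l ^ 2 ∧ l ∣ p - 1 := by
  unfold T at h
  rw [mem_filter, mem_filter, mem_pr, mem_Icc] at h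
  obtain ⟨⟨⟨⟨_, h1⟩, h2⟩, h3⟩, h4⟩ := h
  exact ⟨h2, h1, h3, (Nat.modEq_iff_dvd' hp.one_lt.le).1 h4.symm⟩

theorem card_T {x p : ℕ} (hp : p.Prime) (hpx : p ≤ x) : (T x p).card ≤ 1 := by
  rw [Finset.card_le_one]
  intro l hl l' hl'
  obtain ⟨a1, a2, a3, a4⟩ := mem_T hp hl
  obtain ⟨b1, b2, b3, b4⟩ := mem_T hp hl'
  by_contra hne
  have hc : Nat.Coprime l l' := (Nat.coprime_primes a1 b1).2 hne
  have hd := hc.mul_dvd_of_dvd_of_dvd a4 b4
  have hp2 := hp.two_le
  have h1 : l * l' ≤ p - 1 := Nat.le_of_dvd (by omega) hd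
  have h2 : l * l' < x := by omega
  have h3 : (2 * x) * (2 * x) < l ^ 2 * l' ^ 2 := Nat.mul_lt_mul'' a3 b3
  have h4 : (l * l') * (l * l') < x * x := Nat.mul_lt_mul'' h2 h2
  nlinarith

open Classical in
theorem T_empty {x p : ℕ} (hp : p.Prime) (hpx : p ≤ x) (h : p ∉ lpr x) : T x p = ∅ := by
  rw [Finset.eq_empty_iff_forall_notMem]
  intro l hl
  obtain ⟨a1, a2, a3, a4⟩ := mem_T hp hl
  apply h
  unfold lpr
  rw [mem_filter, mem_Icc]
  exact ⟨⟨hp.one_lt.le, hpx⟩, hp, l, a1, a4, a3⟩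

theorem inner_le {x p : ℕ} (hp : p.Prime) (hpx : p ≤ x) :
    ∑ l ∈ (pr (Icc 1 x)).filter (fun l : ℕ => 2 * x < l ^ 2),
      Real.log l * (if p % l = 1 % l then Real.log p else 0) ≤
      if p ∈ lpr x then (Real.log x) ^ 2 else 0 := by
  have hx0 : 0 ≤ Real.log x := Real.log_natCast_nonneg x
  have h0 : ∑ l ∈ (pr (Icc 1 x)).filter (fun l : ℕ => 2 * x < l ^ 2),
      Real.log l * (if p % l = 1 % l then Real.log p else 0) =
      ∑ l ∈ T x p, Real.log l * Real.log p := by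
    unfold T
    rw [Finset.sum_filter (p := fun l => p % l = 1 % l)]
    refine Finset.sum_congr rfl fun l _ => ?_
    split <;> simp
  rw [h0]
  by_cases h : p ∈ lpr x
  · rw [if_pos h]
    have hlog : ∀ m : ℕ, 1 ≤ m → m ≤ x → Real.log m ≤ Real.log x := fun m h1 h2 =>
      Real.log_le_log (by exact_mod_cast h1) (by exact_mod_cast h2)
    have h1 : ∑ l ∈ T x p, Real.log l * Real.log p ≤ (T x p).card • (Real.log x) ^ 2 := by
      refine Finset.sum_le_card_nsmul _ _ _ fun l hl => ?_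
      obtain ⟨a1, a2, a3, a4⟩ := mem_T hp hl
      rw [sq]
      exact mul_le_mul (hlog l a1.one_lt.le a2) (hlog p hp.one_lt.le hpx)
        (Real.log_natCast_nonneg p) hx0
    refine h1.trans ?_
    rw [nsmul_eq_mul]
    have h2 : ((T x p).card : ℝ) ≤ 1 := by exact_mod_cast card_T hp hpx
    have h3 := sq_nonneg (Real.log x)
    nlinarith
  · rw [if_neg h, T_empty hp hpx h, Finset.sum_empty]

theorem key (x : ℕ) :
    ∑ l ∈ (pr (Icc 1 x)).filter (fun l : ℕ => 2 * x < l ^ 2), Real.log l * Th x l ≤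
      ((lpr x).card : ℝ) * (Real.log x) ^ 2 := by
  have h0 : ∀ l : ℕ, Th x l = ∑ p ∈ pr (Icc 1 x), if p % l = 1 % l then Real.log p else 0 := by
    intro l
    unfold Th pr
    rw [← Finset.sum_filter, Finset.filter_filter]
  have h1 : ∑ l ∈ (pr (Icc 1 x)).filter (fun l : ℕ => 2 * x < l ^ 2), Real.log l * Th x l =
      ∑ p ∈ pr (Icc 1 x), ∑ l ∈ (pr (Icc 1 x)).filter (fun l : ℕ => 2 * x < l ^ 2),
        Real.log l * (if p % l = 1 % l then Real.log p else 0) := by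
    rw [Finset.sum_comm]
    refine Finset.sum_congr rfl fun l _ => ?_
    rw [h0, Finset.mul_sum]
  rw [h1]
  have h2 : ∑ p ∈ pr (Icc 1 x), ∑ l ∈ (pr (Icc 1 x)).filter (fun l : ℕ => 2 * x < l ^ 2),
        Real.log l * (if p % l = 1 % l then Real.log p else 0) ≤
      ∑ p ∈ pr (Icc 1 x), if p ∈ lpr x then (Real.log x) ^ 2 else 0 := by
    refine Finset.sum_le_sum fun p hp => ?_
    rw [mem_pr, mem_Icc] at hp
    exact inner_le hp.2 hp.1.2
  refine h2.trans ?_
  rw [← Finset.sum_filter, Finset.sum_const, nsmul_eq_mul]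
  have h3 : ((pr (Icc 1 x)).filter (fun p => p ∈ lpr x)).card ≤ (lpr x).card := by
    refine Finset.card_le_card fun p hp => ?_
    exact (mem_filter.1 hp).2
  exact mul_le_mul_of_nonneg_right (by exact_mod_cast h3) (sq_nonneg _)

/-- **CNT** -/
theorem cnt (h : GolStmt) : CntStmt := by
  intro η hη
  obtain ⟨X, hX⟩ := h η hη
  refine ⟨max X 3, fun x hx => ?_⟩
  have h1 := hX x (le_trans (le_max_left _ _) hx)
  have hx3 : 3 ≤ x := le_trans (le_max_right _ _) hx
  have hl : 0 < Real.log x := Real.log_pos (by exact_mod_cast (by omega : 1 < x))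
  have h2 := h1.trans (key x)
  have h3 : (1 / 2 - η) * (x / Real.log x) = (1 / 2 - η) * x * Real.log x / Real.log x ^ 2 := by
    field_simp
  rw [h3, div_le_iff₀ (by positivity)]
  exact h2

end Pool.Agent.EWG.H26
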